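import Pool.Agent.Q110.BC.Defs

/-!
# Broadcast domination and lower irredundance in graphs of girth at least five
-/

set_option autoImplicit false
set_option linter.unusedSectionVars false

namespace Q110.BI

open Q110.BC

variable {V : Type*} [Fintype V] [DecidableEq V]

/-- `u` is in the closed neighbourhood of `v`. -/
def CN (G : SimpleGraph V) (v u : V) : Prop := u = v ∨ G.Adj v u

/-- The private neighbourhood of `s` with respect to `S`. -/
def PN (G : SimpleGraph V) (S : Finset V) (s : V) : Set V :=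
  {x | CN G s x ∧ ∀ r ∈ S, r ≠ s → ¬ CN G r x}

/-- `S` is irredundant. -/
def Irr (G : SimpleGraph V) (S : Finset V) : Prop := ∀ s ∈ S, (PN G S s).Nonempty

/-- `S` is maximal irredundant. -/
def MaxIrr (G : SimpleGraph V) (S : Finset V) : Prop :=
  Irr G S ∧ ∀ S' : Finset V, S ⊂ S' → ¬ Irr G S'

/-- The lower irredundance number. -/
noncomputable def irNum (G : SimpleGraph V) : ℕ :=
  sInf {k | ∃ S : Finset V, MaxIrr G S ∧ S.card = k}

theorem exists_maxIrr (G : SimpleGraph V) : ∃ S : Finset V, MaxIrr G S := by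
  classical
  have hne : (Finset.univ.filter (fun S : Finset V => Irr G S)).Nonempty :=
    ⟨∅, Finset.mem_filter.mpr ⟨Finset.mem_univ _, fun s hs => absurd hs (Finset.notMem_empty s)⟩⟩
  obtain ⟨S, hS, hmax⟩ := Finset.exists_max_image _ Finset.card hne
  rw [Finset.mem_filter] at hS
  refine ⟨S, hS.2, fun S' hlt hirr => ?_⟩
  have h1 := hmax S' (Finset.mem_filter.mpr ⟨Finset.mem_univ _, hirr⟩)
  have h2 := Finset.card_lt_card hlt
  omega

theorem exists_ir (G : SimpleGraph V) : ∃ S : Finset V, MaxIrr G S ∧ S.card = irNum G := by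
  obtain ⟨S, hS⟩ := exists_maxIrr G
  exact Nat.sInf_mem (s := {k | ∃ S : Finset V, MaxIrr G S ∧ S.card = k}) ⟨S.card, S, hS, rfl⟩

/-- `s` can be replaced by its only private neighbour `x`. -/
def Rep (G : SimpleGraph V) (S : Finset V) (s x : V) : Prop :=
  PN G S s = {x} ∧ G.Adj s x ∧ ∃ p ∈ S, G.Adj s p

theorem CN.symm {G : SimpleGraph V} {u v : V} (h : CN G u v) : CN G v u := by
  rcases h with h | h
  · exact Or.inl h.symm
  · exact Or.inr h.symm

theorem undominated {G : SimpleGraph V} (h4 : ∀ a b c d, a ≠ c → G.Adj a b → G.Adj b c →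
    G.Adj a d → G.Adj d c → b = d) {S : Finset V} (hS : MaxIrr G S) {u : V}
    (hu : ∀ s ∈ S, ¬ CN G s u) : ∃ s ∈ S, ∃ x, Rep G S s x ∧ G.Adj x u := by
  have huS : u ∉ S := fun h => hu u h (Or.inl rfl)
  have hnot := hS.2 (insert u S) (Finset.ssubset_insert huS)
  unfold Irr at hnot
  push Not at hnot
  obtain ⟨s, hs, hemp⟩ := hnot
  have hsu : s ≠ u := by
    intro h
    subst h
    have : s ∈ PN G (insert s S) s := by
      refine ⟨Or.inl rfl, fun r hr hne hc => ?_⟩
      rcases Finset.mem_insert.mp hr with h | h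
      · exact hne h
      · exact hu r h hc
    rw [hemp] at this
    exact this
  have hsS : s ∈ S := by
    rcases Finset.mem_insert.mp hs with h | h
    · exact absurd h hsu
    · exact h
  have hall : ∀ x ∈ PN G S s, CN G u x := by
    intro x hx
    by_contra hcon
    have : x ∈ PN G (insert u S) s := by
      refine ⟨hx.1, fun r hr hne hc => ?_⟩
      rcases Finset.mem_insert.mp hr with h | h
      · rw [h] at hc; exact hcon hc
      · exact hx.2 r h hne hc
    rw [hemp] at this
    exact this
  have hadj : ∀ x ∈ PN G S s, G.Adj s x ∧ G.Adj x u := by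
    intro x hx
    have h1 := hall x hx
    have h2 := hx.1
    constructor
    · rcases h2 with h | h
      · rw [h] at h1
        exact absurd h1.symm (hu s hsS)
      · exact h
    · rcases h1 with h | h
      · rw [h] at h2
        exact absurd h2 (hu s hsS)
      · exact h.symm
  obtain ⟨x, hx⟩ := hS.1 s hsS
  refine ⟨s, hsS, x, ⟨?_, (hadj x hx).1, ?_⟩, (hadj x hx).2⟩
  · ext y
    constructor
    · intro hy
      exact (h4 s x u y hsu (hadj x hx).1 (hadj x hx).2 (hadj y hy).1 (hadj y hy).2).symm
    · intro hy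
      have : y = x := hy
      rw [this]; exact hx
  · have hns : s ∉ PN G S s := by
      intro h
      exact hu s hsS (hall s h).symm
    have : ∃ r ∈ S, r ≠ s ∧ CN G r s := by
      by_contra hcon
      push Not at hcon
      exact hns ⟨Or.inl rfl, hcon⟩
    obtain ⟨r, hr, hne, hc⟩ := this
    rcases hc with h | h
    · exact absurd h.symm hne
    · exact ⟨r, hr, h.symm⟩

/-- The data of the greedy choice of balls of radius four. -/
def Good (G : SimpleGraph V) (S : Finset V) (p : Finset V × Finset V) : Prop :=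
  p.2 ⊆ S ∧ 4 * p.1.card ≤ p.2.card ∧ ∀ d ∈ p.2, ∃ c ∈ p.1, G.dist c d ≤ 2

theorem dist_adj_le {G : SimpleGraph V} (hc : G.Connected) {a b c : V} (h : G.Adj b c) :
    G.dist a c ≤ G.dist a b + 1 := by
  have h1 := hc.dist_triangle (u := a) (v := b) (w := c)
  have h2 : G.dist b c = 1 := SimpleGraph.dist_eq_one_iff_adj.mpr h
  omega

theorem exists_good {G : SimpleGraph V} (hc : G.Connected)
    (h3 : ∀ a b c, G.Adj a b → G.Adj b c → ¬ G.Adj a c)
    (h4 : ∀ a b c d, a ≠ c → G.Adj a b → G.Adj b c → G.Adj a d → G.Adj d c → b = d)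
    (S : Finset V) : ∃ p : Finset V × Finset V, Good G S p ∧
      ∀ x q₁ q₂ p₁ p₂ : V, x ∉ S → q₁ ∈ S → q₂ ∈ S → p₁ ∈ S → p₂ ∈ S → q₁ ≠ q₂ →
        G.Adj q₁ x → G.Adj q₂ x → G.Adj q₁ p₁ → G.Adj q₂ p₂ → ∃ c ∈ p.1, G.dist c x ≤ 4 := by
  classical
  have hne : (Finset.univ.filter (fun p : Finset V × Finset V => Good G S p)).Nonempty :=
    ⟨(∅, ∅), Finset.mem_filter.mpr ⟨Finset.mem_univ _, by
      refine ⟨Finset.empty_subset _, by simp, fun d hd => absurd hd (Finset.notMem_empty d)⟩⟩⟩
  obtain ⟨⟨B, D⟩, hp, hmax⟩ := Finset.exists_max_image _ (fun p => p.2.card) hne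
  rw [Finset.mem_filter] at hp
  refine ⟨(B, D), hp.2, ?_⟩
  obtain ⟨-, hDS, hcard, hdist⟩ := hp
  intro x q₁ q₂ p₁ p₂ hx hq₁ hq₂ hp₁ hp₂ hq a₁ a₂ b₁ b₂
  by_contra hcon
  push Not at hcon
  dsimp only at hDS hcard hdist hcon
  have nq : ∀ q, G.Adj q x → q ∉ D := by
    intro q hqx hqD
    obtain ⟨c, hcB, hcd⟩ := hdist q hqD
    have h1 := hcon c hcB
    have h2 := dist_adj_le hc (a := c) hqx
    omega
  have np : ∀ q p, G.Adj q x → G.Adj q p → p ∉ D := by
    intro q p hqx hqp hpD
    obtain ⟨c, hcB, hcd⟩ := hdist p hpD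
    have h1 := hcon c hcB
    have h2 := dist_adj_le hc (a := c) hqp.symm
    have h3 := dist_adj_le hc (a := c) hqx
    omega
  have d1 : q₁ ≠ p₁ := b₁.ne
  have d2 : q₂ ≠ p₂ := b₂.ne
  have d3 : q₁ ≠ p₂ := by
    intro h; rw [← h] at b₂
    exact h3 q₂ q₁ x b₂ a₁ a₂
  have d4 : q₂ ≠ p₁ := by
    intro h; rw [← h] at b₁
    exact h3 q₁ q₂ x b₁ a₂ a₁
  have d5 : p₁ ≠ p₂ := by
    intro h; rw [← h] at b₂
    have := h4 q₁ x q₂ p₁ hq a₁ a₂.symm b₁ b₂.symm
    rw [this] at hx
    exact hx hp₁
  let F : Finset V := {q₁, q₂, p₁, p₂}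
  have hF : F.card = 4 := by
    simp only [F]
    rw [Finset.card_insert_of_notMem, Finset.card_insert_of_notMem, Finset.card_insert_of_notMem,
      Finset.card_singleton]
    · simpa using d5
    · simp only [Finset.mem_insert, Finset.mem_singleton, not_or]; exact ⟨d4, d2⟩
    · simp only [Finset.mem_insert, Finset.mem_singleton, not_or]; exact ⟨hq, d1, d3⟩
  have hFD : Disjoint D F := by
    rw [Finset.disjoint_right]
    intro v hv
    simp only [F, Finset.mem_insert, Finset.mem_singleton] at hv
    rcases hv with h | h | h | h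
    · rw [h]; exact nq q₁ a₁
    · rw [h]; exact nq q₂ a₂
    · rw [h]; exact np q₁ p₁ a₁ b₁
    · rw [h]; exact np q₂ p₂ a₂ b₂
  have hgood : Good G S (insert x B, D ∪ F) := by
    refine ⟨?_, ?_, ?_⟩
    · intro v hv
      rcases Finset.mem_union.mp hv with h | h
      · exact hDS h
      · simp only [F, Finset.mem_insert, Finset.mem_singleton] at h
        rcases h with h | h | h | h <;> rw [h] <;> assumption
    · dsimp only
      rw [Finset.card_union_of_disjoint hFD, hF]
      have := Finset.card_insert_le x B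
      omega
    · intro d hd
      rcases Finset.mem_union.mp hd with h | h
      · obtain ⟨c, hcB, hcd⟩ := hdist d h
        exact ⟨c, Finset.mem_insert_of_mem hcB, hcd⟩
      · refine ⟨x, Finset.mem_insert_self _ _, ?_⟩
        have e0 : G.dist x x = 0 := SimpleGraph.dist_self
        have e1 := dist_adj_le hc (a := x) a₁.symm
        have e2 := dist_adj_le hc (a := x) a₂.symm
        have e3 := dist_adj_le hc (a := x) b₁
        have e4 := dist_adj_le hc (a := x) b₂
        simp only [F, Finset.mem_insert, Finset.mem_singleton] at h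
        rcases h with h | h | h | h <;> rw [h] <;> omega
  have h1 := hmax (insert x B, D ∪ F) (Finset.mem_filter.mpr ⟨Finset.mem_univ _, hgood⟩)
  dsimp only at h1
  rw [Finset.card_union_of_disjoint hFD, hF] at h1
  omega

theorem ecc_pos {G : SimpleGraph V} (hc : G.Connected) (hV : 2 ≤ Fintype.card V) (v : V) :
    1 ≤ ecc G v := by
  obtain ⟨u, hu⟩ : ∃ u, u ≠ v := by
    have : Nontrivial V := Fintype.one_lt_card_iff_nontrivial.mp hV
    exact exists_ne v
  have h1 : G.dist v u ≤ ecc G v := Finset.le_sup (f := fun u => G.dist v u) (Finset.mem_univ u)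
  have h2 : 0 < G.dist v u := hc.pos_dist_of_ne hu.symm
  omega

theorem exists_dominating {G : SimpleGraph V} (hc : G.Connected) (hV : 2 ≤ Fintype.card V)
    (h3 : ∀ a b c, G.Adj a b → G.Adj b c → ¬ G.Adj a c)
    (h4 : ∀ a b c d, a ≠ c → G.Adj a b → G.Adj b c → G.Adj a d → G.Adj d c → b = d)
    (S : Finset V) (hS : MaxIrr G S) :
    ∃ f : V → ℕ, IsBroadcast G f ∧ IsDominating G f ∧ cost f ≤ S.card := by
  classical
  obtain ⟨⟨B, D⟩, ⟨hDS, hcard, hdist⟩, hX⟩ := exists_good hc h3 h4 S
  dsimp only at hDS hcard hdist hX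
  let rep : V → V := fun s => if h : ∃ x, Rep G S s x then h.choose else s
  have hrep : ∀ s x, Rep G S s x → rep s = x := by
    intro s x hx
    have hex : ∃ x, Rep G S s x := ⟨x, hx⟩
    have h1 : rep s = hex.choose := by simp only [rep, dif_pos hex]
    have h2 := hex.choose_spec
    have h3 : hex.choose ∈ PN G S s := by rw [h2.1]; exact rfl
    rw [hx.1] at h3
    rw [h1]; exact h3
  have hrep' : ∀ s, (¬ ∃ x, Rep G S s x) → rep s = s := by
    intro s hs
    simp only [rep, dif_neg hs]
  let W : Finset V := (S \ D).image rep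
  let f : V → ℕ := fun v => if v ∈ B then min 4 (ecc G v) else if v ∈ W then 1 else 0
  have hW : ∀ s ∈ S, s ∉ D → rep s ∈ W := fun s hs hsD =>
    Finset.mem_image_of_mem rep (Finset.mem_sdiff.mpr ⟨hs, hsD⟩)
  have hear1 : ∀ v c, c ∈ B → G.dist c v ≤ 4 → ∃ x, HearsFrom G f v x := by
    intro v c hcB hd
    have h1 : f c = min 4 (ecc G c) := by simp only [f, if_pos hcB]
    have h2 := ecc_pos hc hV c
    have h3 : G.dist c v ≤ ecc G c := Finset.le_sup (f := fun u => G.dist c u) (Finset.mem_univ v)
    refine ⟨c, ?_, ?_⟩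
    · rw [h1]; omega
    · rw [h1, SimpleGraph.dist_comm]; omega
  have hear2 : ∀ v w, w ∈ W → G.dist v w ≤ 1 → ∃ x, HearsFrom G f v x := by
    intro v w hw hd
    have h2 := ecc_pos hc hV w
    have h1 : 1 ≤ f w := by
      by_cases hB : w ∈ B
      · have : f w = min 4 (ecc G w) := by simp only [f, if_pos hB]
        omega
      · have : f w = 1 := by simp only [f, if_neg hB, if_pos hw]
        omega
    exact ⟨w, h1, hd.trans h1⟩
  have hear3 : ∀ v s, s ∈ D → G.dist s v ≤ 2 → ∃ x, HearsFrom G f v x := by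
    intro v s hs hd
    obtain ⟨c, hcB, hcs⟩ := hdist s hs
    apply hear1 v c hcB
    have := hc.dist_triangle (u := c) (v := s) (w := v)
    omega
  refine ⟨f, ?_, ?_, ?_⟩
  · intro v
    have := ecc_pos hc hV v
    simp only [f]
    split_ifs <;> omega
  · intro v
    by_cases hu : ∀ s ∈ S, ¬ CN G s v
    · obtain ⟨s, hs, x, hx, hxv⟩ := undominated h4 hS hu
      by_cases hsD : s ∈ D
      · apply hear3 v s hsD
        have e0 : G.dist s s = 0 := SimpleGraph.dist_self
        have e1 := dist_adj_le hc (a := s) hx.2.1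
        have e2 := dist_adj_le hc (a := s) hxv
        omega
      · have h1 := hW s hs hsD
        rw [hrep s x hx] at h1
        apply hear2 v x h1
        rw [SimpleGraph.dist_eq_one_iff_adj.mpr hxv.symm]
    · push Not at hu
      obtain ⟨s, hs, hsv⟩ := hu
      have hdle : ∀ r, CN G r v → G.dist v r ≤ 1 := by
        intro r hr
        rcases hr with h | h
        · rw [h, SimpleGraph.dist_self]; omega
        · rw [SimpleGraph.dist_eq_one_iff_adj.mpr h.symm]
      by_cases hD : ∃ r ∈ S, CN G r v ∧ r ∈ D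
      · obtain ⟨r, -, hrv, hrD⟩ := hD
        apply hear3 v r hrD
        have := hdle r hrv
        rw [SimpleGraph.dist_comm] at this
        omega
      · push Not at hD
        by_cases hfix : ∃ r ∈ S, CN G r v ∧ ¬ ∃ x, Rep G S r x
        · obtain ⟨r, hr, hrv, hrx⟩ := hfix
          have h1 := hW r hr (hD r hr hrv)
          rw [hrep' r hrx] at h1
          exact hear2 v r h1 (hdle r hrv)
        · push Not at hfix
          by_cases hvS : v ∈ S
          · obtain ⟨x, hx⟩ := hfix v hvS (Or.inl rfl)
            have h1 := hW v hvS (hD v hvS (Or.inl rfl))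
            rw [hrep v x hx] at h1
            apply hear2 v x h1
            rw [SimpleGraph.dist_eq_one_iff_adj.mpr hx.2.1]
          · have hadj : ∀ r ∈ S, CN G r v → G.Adj r v := by
              intro r hr hrv
              rcases hrv with h | h
              · rw [h] at hvS; exact absurd hr hvS
              · exact h
            by_cases hone : ∃ r ∈ S, r ≠ s ∧ CN G r v
            · obtain ⟨r, hr, hne, hrv⟩ := hone
              obtain ⟨x, hx⟩ := hfix s hs hsv
              obtain ⟨y, hy⟩ := hfix r hr hrv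
              obtain ⟨p₁, hp₁, hp₁'⟩ := hx.2.2
              obtain ⟨p₂, hp₂, hp₂'⟩ := hy.2.2
              obtain ⟨c, hcB, hcd⟩ := hX v s r p₁ p₂ hvS hs hr hp₁ hp₂ hne.symm
                (hadj s hs hsv) (hadj r hr hrv) hp₁' hp₂'
              exact hear1 v c hcB hcd
            · push Not at hone
              have hv : v ∈ PN G S s := ⟨hsv, fun r hr hne => hone r hr hne⟩
              obtain ⟨x, hx⟩ := hfix s hs hsv
              rw [hx.1] at hv
              have hvx : v = x := hv
              have h1 := hW s hs (hD s hs hsv)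
              rw [hrep s x hx, ← hvx] at h1
              apply hear2 v v h1
              rw [SimpleGraph.dist_self]; omega
  · have h1 : cost f ≤ ∑ v, ((if v ∈ B then 4 else 0) + (if v ∈ W then 1 else 0)) := by
      unfold cost
      apply Finset.sum_le_sum
      intro v _
      simp only [f]
      split_ifs <;> omega
    have h2 : ∑ v, ((if v ∈ B then 4 else 0) + (if v ∈ W then 1 else 0)) =
        B.card * 4 + W.card := by
      rw [Finset.sum_add_distrib, ← Finset.sum_filter, ← Finset.sum_filter]
      simp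
    have h3 : W.card ≤ (S \ D).card := Finset.card_image_le
    have h4 : (S \ D).card = S.card - D.card := Finset.card_sdiff_of_subset hDS
    have h5 : D.card ≤ S.card := Finset.card_le_card hDS
    omega

theorem gammaB_le {G : SimpleGraph V} (hc : G.Connected) (hV : 2 ≤ Fintype.card V)
    (h3 : ∀ a b c, G.Adj a b → G.Adj b c → ¬ G.Adj a c)
    (h4 : ∀ a b c d, a ≠ c → G.Adj a b → G.Adj b c → G.Adj a d → G.Adj d c → b = d) :
    gammaB G ≤ irNum G := by
  obtain ⟨S, hS, hSc⟩ := exists_ir G
  obtain ⟨f, hf1, hf2, hf3⟩ := exists_dominating hc hV h3 h4 S hS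
  have : gammaB G ≤ cost f := Nat.sInf_le ⟨f, hf1, hf2, rfl⟩
  omega

theorem irB_le_gammaB {G : SimpleGraph V} (hc : G.Connected) (hV : 2 ≤ Fintype.card V) :
    irB G ≤ gammaB G := by
  classical
  have hne : {c | ∃ f : V → ℕ, IsBroadcast G f ∧ IsDominating G f ∧ cost f = c}.Nonempty := by
    refine ⟨_, fun v => ecc G v, fun v => le_rfl, fun v => ⟨v, ?_, ?_⟩, rfl⟩
    · exact ecc_pos hc hV v
    · rw [SimpleGraph.dist_self]; exact Nat.zero_le _
  obtain ⟨f, hf1, hf2, hf3⟩ := Nat.sInf_mem hne
  have hf3' : cost f = gammaB G := hf3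
  rw [← hf3']
  apply Nat.sInf_le
  refine ⟨f, ⟨hf1, ?_, ?_⟩, rfl⟩
  · intro v hv
    have hnd : ¬ IsDominating G (Function.update f v (f v - 1)) := by
      intro hdom
      have hbr : IsBroadcast G (Function.update f v (f v - 1)) := by
        intro w
        by_cases hw : w = v
        · subst hw
          rw [Function.update_self]
          have := hf1 w
          omega
        · rw [Function.update_of_ne hw]; exact hf1 w
      have h1 : gammaB G ≤ cost (Function.update f v (f v - 1)) := Nat.sInf_le ⟨_, hbr, hdom, rfl⟩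
      have h2 : cost (Function.update f v (f v - 1)) < cost f := by
        unfold cost
        apply Finset.sum_lt_sum
        · intro w _
          by_cases hw : w = v
          · subst hw; rw [Function.update_self]; omega
          · rw [Function.update_of_ne hw]
        · exact ⟨v, Finset.mem_univ v, by rw [Function.update_self]; omega⟩
      omega
    unfold IsDominating at hnd
    push Not at hnd
    obtain ⟨u, hu⟩ := hnd
    refine ⟨u, ?_, hu⟩
    obtain ⟨y, hy1, hy2⟩ := hf2 u
    by_cases hyv : y = v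
    · rw [hyv] at hy2; exact hy2
    · exfalso
      apply hu y
      unfold HearsFrom
      rw [Function.update_of_ne hyv]
      exact ⟨hy1, hy2⟩
  · intro g hg hfg hne' hirr
    obtain ⟨w, hw⟩ : ∃ w, f w < g w := by
      by_contra hcon
      push Not at hcon
      apply hne'
      funext w
      exact le_antisymm (hcon w) (hfg w)
    obtain ⟨u, -, hu⟩ := hirr w (by omega)
    obtain ⟨x, hx1, hx2⟩ := hf2 u
    apply hu x
    have hle : f x ≤ Function.update g w (g w - 1) x := by
      by_cases hxw : x = w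
      · subst hxw; rw [Function.update_self]; omega
      · rw [Function.update_of_ne hxw]; exact hfg x
    exact ⟨lt_of_lt_of_le hx1 hle, hx2.trans hle⟩

theorem acyclic_h4 {G : SimpleGraph V} (h : G.IsAcyclic) :
    ∀ a b c d, a ≠ c → G.Adj a b → G.Adj b c → G.Adj a d → G.Adj d c → b = d := by
  intro a b c d hac hab hbc had hdc
  let p : G.Path a c := ⟨.cons hab (.cons hbc .nil), by
    simp [SimpleGraph.Walk.isPath_def, hab.ne, hac, hbc.ne]⟩
  let q : G.Path a c := ⟨.cons had (.cons hdc .nil), by
    simp [SimpleGraph.Walk.isPath_def, had.ne, hac, hdc.ne]⟩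
  have hpq : p = q := (h.subsingleton_path a c).elim p q
  have h1 : p.1.support = q.1.support := by rw [hpq]
  simp only [p, q, SimpleGraph.Walk.support_cons, SimpleGraph.Walk.support_nil] at h1
  simp only [List.cons.injEq] at h1
  exact h1.2.1

theorem acyclic_h3 {G : SimpleGraph V} (h : G.IsAcyclic) :
    ∀ a b c, G.Adj a b → G.Adj b c → ¬ G.Adj a c := by
  intro a b c hab hbc hac
  let p : G.Path a c := ⟨.cons hab (.cons hbc .nil), by
    simp [SimpleGraph.Walk.isPath_def, hab.ne, hac.ne, hbc.ne]⟩
  let q : G.Path a c := ⟨.cons hac .nil, by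
    simp [SimpleGraph.Walk.isPath_def, hac.ne]⟩
  have hpq : p = q := (h.subsingleton_path a c).elim p q
  have h1 : p.1.length = q.1.length := by rw [hpq]
  simp [p, q] at h1

end Q110.BI
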